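import Mathlib
import Pool.Agent.L0h50.NL.Proj

/-!
# `L₂(s)` near the line `Re s = 2` for most complete intersections in an arbitrary variety

`Z` is an arbitrary smooth projective variety over `ℚ`, of dimension `n + r`, in a projective space `ℙ^N`, and
`X_c = Z ∩ {F_{c,1} = ⋯ = F_{c,r} = 0}` runs through its intersections with `r` hypersurfaces of given degrees, whose
coefficients `c` are integers of absolute value at most `H`; for `n = 2` these are surfaces.  `Θ` is any system of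
at most `ρ` complex numbers of absolute value at most `1` for every prime number, for instance an Artin
representation of degree `ρ` (induced from the unit representation of a number field `F` of degree `ρ`, this gives the
L-functions over `F`), or the normalised eigenvalues of Frobenius on a cohomology group of another variety `Y` (this
gives the products `Y × X_c`), or `p ^ (iτ)`.

By Lefschetz, `H^n(Z)` is a part of `H^n(X_c)`, and by Noether and Lefschetz, for `n = 2`, the other part does not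
contain a class of a divisor for most `c` (if the degrees are large), so that the rank of `NS(X_c / ℚ)` is the
one of `NS(Z / ℚ)` and, by Tate's conjecture, `L₂(s, X_c)` and `L₂(s, Z)` should have poles of the same order at `s = 2`.
Here the analytic side of this comparison is proved in mean square: for all `c` except for a proportion `δ`, the
quotient of the L-functions of `H^n(X_c) ⊗ Θ` and of `H^n(Z) ⊗ Θ` is bounded from above and from below, by a
constant depending on `T / δ` only, in the whole rectangle `1 / log H ≤ Re s - n/2 - 1 ≤ 1`, `|Im s| ≤ T`.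

The starting results `LinearSystems` and `NearTheWholeLine` of this page are about the hypersurfaces in
`ℙ^{2m+1}`, without `Θ`.
-/

set_option autoImplicit false

open Pool.Agent.Y722.HS Pool.Agent.L0h50.NL

namespace Pool.Agent.Results.MP_1f4fc7_nt.AmbientVariety

/-- The L-functions of `H^n(X_c) ⊗ Θ`, `c` in the box of the vectors with integer coordinates of absolute value
at most `H`, behave near the line `Re s = n/2 + 1` like the L-function of `H^n(Z) ⊗ Θ`: (1) mean square of the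
error, at points which may depend on `c`; (2) the error in the whole rectangle for all `c` outside of an exceptional
set of proportion `δ`. The constant depends neither on `Θ` nor on `H` nor on `T`. -/
def NearAmbient {N r : ℕ} (E : Set (MvPolynomial (Fin (N + 1)) ℤ)) {d : Fin r → ℕ} (n p₀ : ℕ) {b : ℕ → ℕ}
    (β : ∀ _p k : ℕ, Fin (b k) → ℂ) (P : MvPolynomial (Coef N d) ℤ) (ρ B B' : ℕ) : Prop :=
  ∃ C : ℝ, 0 < C ∧ ∀ (θ : ℕ → Fin ρ → ℂ) (γ : ℕ → Fin B' → ℂ), (∀ p i, ‖θ p i‖ ≤ 1) →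
    IsAmbient n p₀ β θ γ → ∀ H : ℕ, 2 ≤ H → ∀ T : ℝ, 0 ≤ T →
    (∀ S ⊆ box (Coef N d) H, ∀ (α : (Coef N d → ℤ) → ℕ → Fin B → ℂ) (ε τ : (Coef N d → ℤ) → ℝ),
      (∀ c ∈ S, IsMember E n p₀ β P θ c (α c)) →
      (∀ c ∈ S, 1 / Real.log H ≤ ε c ∧ ε c ≤ 1 ∧ |τ c| ≤ T) →
      ∑ c ∈ S, (Real.log ‖LP (α c) (n / 2 + 1 + ε c + τ c * Complex.I)‖ -
        Real.log ‖LP γ (n / 2 + 1 + ε c + τ c * Complex.I)‖) ^ 2 ≤
          C * (1 + T) * (box (Coef N d) H).card) ∧
    (∀ δ : ℝ, 0 < δ → ∃ X ⊆ box (Coef N d) H, (X.card : ℝ) ≤ δ * (box (Coef N d) H).card ∧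
      ∀ c ∈ box (Coef N d) H \ X, ∀ α : ℕ → Fin B → ℂ, IsMember E n p₀ β P θ c α → ∀ ε τ : ℝ,
        1 / Real.log H ≤ ε → ε ≤ 1 → |τ| ≤ T →
        LP α (n / 2 + 1 + ε + τ * Complex.I) ≠ 0 ∧ LP γ (n / 2 + 1 + ε + τ * Complex.I) ≠ 0 ∧
        |Real.log ‖LP α (n / 2 + 1 + ε + τ * Complex.I)‖ -
          Real.log ‖LP γ (n / 2 + 1 + ε + τ * Complex.I)‖| ≤ Real.sqrt (C * (1 + T) / δ))

/-- If the L-function of `H^n(Z) ⊗ Θ` has a meromorphic continuation to a neighbourhood of `n/2 + 1`, with a pole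
of order `m` there, then for all `c` in the box outside of an exceptional set of proportion `δ` the L-function of
`H^n(X_c) ⊗ Θ` behaves as if it had a pole of order `m`, at all the distances between `1 / log H` and `1`. -/
def SamePole {N r : ℕ} (E : Set (MvPolynomial (Fin (N + 1)) ℤ)) {d : Fin r → ℕ} (n p₀ : ℕ) {b : ℕ → ℕ}
    (β : ∀ _p k : ℕ, Fin (b k) → ℂ) (P : MvPolynomial (Coef N d) ℤ) (ρ B B' : ℕ) : Prop :=
  ∀ (θ : ℕ → Fin ρ → ℂ) (γ : ℕ → Fin B' → ℂ), (∀ p i, ‖θ p i‖ ≤ 1) → IsAmbient n p₀ β θ γ →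
    ∀ m : ℤ, HasPole n γ m → ∃ C : ℝ, 0 < C ∧ ∀ H : ℕ, 2 ≤ H → ∀ δ : ℝ, 0 < δ → δ ≤ 1 →
      ∃ X ⊆ box (Coef N d) H, (X.card : ℝ) ≤ δ * (box (Coef N d) H).card ∧
        ∀ c ∈ box (Coef N d) H \ X, ∀ α : ℕ → Fin B → ℂ, IsMember E n p₀ β P θ c α → ∀ ε : ℝ,
          1 / Real.log H ≤ ε → ε ≤ 1 →
          |Real.log ‖LP α (n / 2 + 1 + ε)‖ - m * Real.log (1 / ε)| ≤ C / Real.sqrt δ

/-- Complete intersections of dimension `2 m` in projective space of dimension `2 m + r` (surfaces for `m = 1`): for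
all `c` in the box outside of an exceptional set of proportion `δ`, the quotient of the L-function of
`H^{2m}(X_c)` and of `ζ(s - m)` is bounded from above and from below in the whole rectangle. -/
def NearZeta {m r : ℕ} (d : Fin r → ℕ) (p₀ : ℕ) (P : MvPolynomial (Coef (2 * m + r) d) ℤ) (B : ℕ) : Prop :=
  ∃ C : ℝ, 0 < C ∧ ∀ H : ℕ, 2 ≤ H → ∀ T : ℝ, 0 ≤ T → ∀ δ : ℝ, 0 < δ →
    ∃ X ⊆ box (Coef (2 * m + r) d) H, (X.card : ℝ) ≤ δ * (box (Coef (2 * m + r) d) H).card ∧
      ∀ c ∈ box (Coef (2 * m + r) d) H \ X, ∀ α : ℕ → Fin B → ℂ,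
        IsMember ∅ (2 * m) p₀ (projEigen (2 * m + r)) P (fun _ _ => 1 : ℕ → Fin 1 → ℂ) c α → ∀ ε τ : ℝ,
        1 / Real.log H ≤ ε → ε ≤ 1 → |τ| ≤ T →
        |Real.log ‖LP α (m + 1 + ε + τ * Complex.I)‖ -
          Real.log ‖riemannZeta (1 + ε + τ * Complex.I)‖| ≤ Real.sqrt (C * (1 + T) / δ)

lemma near {N r : ℕ} {E : Set (MvPolynomial (Fin (N + 1)) ℤ)} {d : Fin r → ℕ} (hd : ∀ j, 1 ≤ d j)
    {n p₀ : ℕ} {b : ℕ → ℕ} {β : ∀ _p k : ℕ, Fin (b k) → ℂ} (h : IsCohomology E (n + r) p₀ b β)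
    {P : MvPolynomial (Coef N d) ℤ} (hP : P ≠ 0) (ρ B B' : ℕ) : NearAmbient E n p₀ β P ρ B B' := by
  classical
  obtain ⟨C, hC, hM⟩ := majorant N r d hd E n p₀ b β h P hP ρ B B'
  refine ⟨C, hC, fun θ γ hθ hγ H hH T hT => ?_⟩
  obtain ⟨M, hM0, hM1, hM2⟩ := hM θ γ hθ hγ H hH T hT
  have hB : (0 : ℝ) < (2 * H + 1 : ℝ) ^ Fintype.card (Coef N d) := by positivity
  have hsum : ∑ c ∈ box (Coef N d) H, M c ≤ C * (1 + T) * (box (Coef N d) H).card := by
    calc _ = EB H M * (box (Coef N d) H).card := by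
          rw [EB, card_box]
          field_simp
      _ ≤ _ := by gcongr
  refine ⟨fun S hS α ε τ hα hε => ?_, fun δ hδ => ?_⟩
  · calc _ ≤ ∑ c ∈ S, M c := Finset.sum_le_sum fun c hc =>
          hM2 c (α c) (ε c) (τ c) (hα c hc) (hε c hc).1 (hε c hc).2.1 (hε c hc).2.2
      _ ≤ ∑ c ∈ box (Coef N d) H, M c := Finset.sum_le_sum_of_subset_of_nonneg hS fun c _ _ => hM0 c
      _ ≤ _ := hsum
  · have hCT : 0 < C * (1 + T) := by positivity
    refine ⟨(box (Coef N d) H).filter (fun c => C * (1 + T) / δ < M c), Finset.filter_subset _ _, ?_, ?_⟩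
    · have h1 : (((box (Coef N d) H).filter (fun c => C * (1 + T) / δ < M c)).card : ℝ) *
          (C * (1 + T) / δ) ≤ ∑ c ∈ (box (Coef N d) H).filter (fun c => C * (1 + T) / δ < M c), M c := by
        rw [← nsmul_eq_mul]
        exact Finset.card_nsmul_le_sum _ _ _ fun c hc => (Finset.mem_filter.mp hc).2.le
      have h2 : ∑ c ∈ (box (Coef N d) H).filter (fun c => C * (1 + T) / δ < M c), M c ≤
          ∑ c ∈ box (Coef N d) H, M c :=
        Finset.sum_le_sum_of_subset_of_nonneg (Finset.filter_subset _ _) fun c _ _ => hM0 c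
      have h3 := (h1.trans h2).trans hsum
      rw [mul_div_assoc', div_le_iff₀ hδ] at h3
      have h4 : (C * (1 + T)) * (((box (Coef N d) H).filter
          (fun c => C * (1 + T) / δ < M c)).card : ℝ) ≤
          (C * (1 + T)) * (δ * (box (Coef N d) H).card) := by linarith
      exact le_of_mul_le_mul_left h4 hCT
    · intro c hc α hα ε τ hε0 hε1 hτ
      rw [Finset.mem_sdiff, Finset.mem_filter, not_and, not_lt] at hc
      have h1 := hM2 c α ε τ hα hε0 hε1 hτ
      have h2 := h1.trans (hc.2 hc.1)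
      have hlogH : 0 < Real.log H := Real.log_pos (by exact_mod_cast (by omega : 1 < H))
      have hεp : 0 < ε := lt_of_lt_of_le (by positivity) hε0
      have hne : ∀ {B : ℕ} (α : ℕ → Fin B → ℂ), (∀ p : ℕ, p.Prime → ∀ j, ‖α p j‖ ≤ (p : ℝ) ^ ((n : ℝ) / 2)) →
          LP α (n / 2 + 1 + ε + τ * Complex.I) ≠ 0 := by
        intro B α hα
        have hs1 : ss (n + 1) ε = (n : ℂ) / 2 + 1 + ε := by
          unfold ss
          push_cast
          ring
        have hbound : ∀ p : ℕ, p.Prime → ∀ j,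
            ‖Pool.Agent.N534.TL.twist α τ p j‖ ≤ (p : ℝ) ^ ((((n + 1 : ℕ) : ℝ) - 1) / 2) := by
          intro p hp j
          have e : (((n + 1 : ℕ) : ℝ) - 1) / 2 = (n : ℝ) / 2 := by push_cast; ring
          rw [e, Pool.Agent.N534.TL.twist_norm α τ p hp]
          exact hα p hp j
        rw [← hs1, ← Pool.Agent.N534.TL.LP_twist, LP_eq hεp hbound]
        exact Complex.exp_ne_zero _
      exact ⟨hne α hα.bound, hne γ hγ.bound, Real.abs_le_sqrt h2⟩

lemma same {N r : ℕ} {E : Set (MvPolynomial (Fin (N + 1)) ℤ)} {d : Fin r → ℕ} {n p₀ : ℕ} {b : ℕ → ℕ}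
    {β : ∀ _p k : ℕ, Fin (b k) → ℂ} {P : MvPolynomial (Coef N d) ℤ} {ρ B B' : ℕ}
    (h : NearAmbient E n p₀ β P ρ B B') : SamePole E n p₀ β P ρ B B' := by
  intro θ γ hθ hγ m hm
  obtain ⟨C, hC, h⟩ := h
  obtain ⟨C₁, hC₁, h₁⟩ := pole_near hγ.bound hm
  refine ⟨Real.sqrt C + C₁ + 1, by positivity, fun H hH δ hδ hδ1 => ?_⟩
  obtain ⟨X, hX, hX1, hX2⟩ := (h θ γ hθ hγ H hH 0 le_rfl).2 δ hδ
  refine ⟨X, hX, hX1, fun c hc α hα ε hε hε1 => ?_⟩
  have hlogH : 0 < Real.log H := Real.log_pos (by exact_mod_cast (by omega : 1 < H))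
  have hεp : 0 < ε := lt_of_lt_of_le (by positivity) hε
  obtain ⟨-, -, g1⟩ := hX2 c hc α hα ε 0 hε hε1 (by simp)
  have g2 := h₁ ε hεp hε1
  simp only [Complex.ofReal_zero, zero_mul, add_zero, mul_one] at g1
  have g3 : Real.sqrt (C / δ) = Real.sqrt C / Real.sqrt δ := Real.sqrt_div hC.le δ
  have g4 : 0 < Real.sqrt δ := Real.sqrt_pos.mpr hδ
  have g5 : Real.sqrt δ ≤ 1 := by
    rw [← Real.sqrt_one]
    exact Real.sqrt_le_sqrt hδ1
  have g6 : C₁ + 1 ≤ (C₁ + 1) / Real.sqrt δ := by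
    rw [le_div_iff₀ g4]
    exact mul_le_of_le_one_right (by positivity) g5
  have g7 := abs_sub_le (Real.log ‖LP α (n / 2 + 1 + ε)‖) (Real.log ‖LP γ (n / 2 + 1 + ε)‖)
    (m * Real.log (1 / ε))
  rw [g3] at g1
  have g8 : (Real.sqrt C + C₁ + 1) / Real.sqrt δ = Real.sqrt C / Real.sqrt δ + (C₁ + 1) / Real.sqrt δ := by
    rw [← add_div]
    congr 1
    ring
  rw [g8]
  linarith

lemma zeta {m r : ℕ} {d : Fin r → ℕ} (hd : ∀ j, 1 ≤ d j) (p₀ : ℕ)
    {P : MvPolynomial (Coef (2 * m + r) d) ℤ} (hP : P ≠ 0) (B : ℕ) : NearZeta d p₀ P B := by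
  have hcoh : IsCohomology (∅ : Set (MvPolynomial (Fin (2 * m + r + 1)) ℤ)) (2 * m + r) p₀
      (projBetti (2 * m + r)) (projEigen (2 * m + r)) := by
    have h := isCohomology_proj (2 * m + r)
    exact ⟨fun p hp _ => h.weight p hp (Nat.zero_le _), fun p _ _ => h.trace p (Nat.zero_le _),
      fun p hp _ => h.lefschetz p hp (Nat.zero_le _)⟩
  have hamb : IsAmbient (2 * m) p₀ (projEigen (2 * m + r)) (fun _ _ => 1 : ℕ → Fin 1 → ℂ)
      (fun p _ => (p : ℂ) ^ m : ℕ → Fin 1 → ℂ) := by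
    have h := isAmbient_proj (2 * m + r) m (by omega)
    exact ⟨h.bound, fun p hp _ => h.power p hp (Nat.zero_le _)⟩
  obtain ⟨C, hC, h⟩ := near hd hcoh hP 1 B 1
  refine ⟨C, hC, fun H hH T hT δ hδ => ?_⟩
  obtain ⟨X, hX, hX1, hX2⟩ := (h _ _ (fun _ _ => by simp) hamb H hH T hT).2 δ hδ
  refine ⟨X, hX, hX1, fun c hc α hα ε τ hε hε1 hτ => ?_⟩
  have hlogH : 0 < Real.log H := Real.log_pos (by exact_mod_cast (by omega : 1 < H))
  have hεp : 0 < ε := lt_of_lt_of_le (by positivity) hε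
  obtain ⟨-, -, g1⟩ := hX2 c hc α hα ε τ hε hε1 hτ
  rw [LP_proj m ε τ hεp] at g1
  have e : (((2 * m : ℕ) : ℂ)) / 2 + 1 + ε + τ * Complex.I = m + 1 + ε + τ * Complex.I := by
    push_cast
    ring
  rw [e] at g1
  exact g1

/-- **Complete intersections in an arbitrary variety.** Let `Z` be a smooth projective variety of dimension
`n + r` over `ℚ` with good reduction at the primes `p ≥ p₀`, `d_1, …, d_r ≥ 1` and `P` a nonzero polynomial with integer
coefficients in the coefficients `c` of `r` forms of these degrees, for instance the discriminant (the reduction of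
`X_c` is good at the primes `p ≥ p₀` that do not divide `P(c)`).
(1) The L-functions of `H^n(X_c) ⊗ Θ` are near the line `Re s = n/2 + 1` like the one of `H^n(Z) ⊗ Θ`, for most `c`
and all unitary `Θ` of degree `ρ`, uniformly in `Θ`.
(2) They behave as if they had poles of the same order at `n/2 + 1` as the L-function of `H^n(Z) ⊗ Θ`.
(3) For `Z = ℙ^{2m+r}`: the L-functions of `H^{2m}(X_c)` are like `ζ(s - m)`. -/
theorem result :
    (∀ (N r : ℕ) (E : Set (MvPolynomial (Fin (N + 1)) ℤ)) (d : Fin r → ℕ), (∀ j, 1 ≤ d j) →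
      ∀ (n p₀ : ℕ) (b : ℕ → ℕ) (β : ∀ _p k : ℕ, Fin (b k) → ℂ), IsCohomology E (n + r) p₀ b β →
      ∀ P : MvPolynomial (Coef N d) ℤ, P ≠ 0 → ∀ ρ B B' : ℕ,
        NearAmbient E n p₀ β P ρ B B' ∧ SamePole E n p₀ β P ρ B B') ∧
    (∀ (m r : ℕ) (d : Fin r → ℕ), (∀ j, 1 ≤ d j) → ∀ (p₀ : ℕ) (P : MvPolynomial (Coef (2 * m + r) d) ℤ),
      P ≠ 0 → ∀ B : ℕ, NearZeta d p₀ P B) :=
  ⟨fun _ _ _ _ hd _ _ _ _ h _ hP ρ B B' => ⟨near hd h hP ρ B B', same (near hd h hP ρ B B')⟩,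
    fun _ _ _ hd p₀ _ hP B => zeta hd p₀ hP B⟩

end Pool.Agent.Results.MP_1f4fc7_nt.AmbientVariety
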