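import Mathlib
import Pool.Agent.L0h50.NL.Defs
import Pool.Agent.L0h50.DL.Final

/-!
# `L₂(s, X ⊗ χ)` near `s = 2` for the Dirichlet characters `χ` modulo `q`: size and limit law

`X` is an arbitrary smooth projective variety over `ℚ` (it need not be geometrically connected: a variety over a
number field `k` is a variety over `ℚ`, with the same L-function), of dimension `D`, with good reduction at the primes
`p ≥ p₀`, and `Θ` any system of at most `ρ` complex numbers of absolute value at most `1` for every prime number, for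
instance the trivial one, an Artin representation, or the normalised eigenvalues of Frobenius of another variety.
`γ` are the eigenvalues of the Frobenius of `H^n(X) ⊗ Θ`; for `n = 2`, the question, `Θ` trivial and `χ` a Dirichlet
character, the L-function of `H^2(X) ⊗ χ` is a factor of `L₂(s)` of `X` over the cyclotomic field `ℚ(ζ_q)`, and
Tate's conjecture, for all `q` together, says that its pole at `s = 2` is of order zero for all but finitely many
primitive `χ`, and of the order given by `NS(X)` for the others.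

No meromorphic continuation is known in this generality. Here `L(H^n(X) ⊗ Θ ⊗ χ, s)` is treated to the right of the
edge `Re s = n/2 + 1` of absolute convergence, for most `χ` modulo `q`, and up to the distance `exp (-√(φ(q)))` from the
edge, which is far smaller than any power of `1 / q`.

The proof is by the large sieve (Brun and Titchmarsh for the primes in residue classes modulo `q`, up to an infinite
height), and a comparison with the random Euler product.
-/

set_option autoImplicit false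

open Pool.Agent.L0h50.NL Pool.Agent.L0h50.DL Filter Topology MeasureTheory

namespace Pool.Agent.Results.MP_1f4fc7_nt.DirichletTwistLaw

/-- (1) The mean square of `log |L(H^n(X) ⊗ Θ ⊗ χ, n/2 + 1 + ε + iτ)|` over the characters modulo `q`, uniformly in
`q` and `ε`; (2) for `exp (-√(φ(q))) ≤ ε ≤ 1` and all `χ` modulo `q` with at most `δ φ(q)` exceptions the L-function
does not vanish at `n/2 + 1 + ε + iτ`, and is bounded from above and from below by constants which depend on `δ`
and `C` only. -/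
def SizeBound {B : ℕ} (C : ℝ) (n : ℕ) (γ : ℕ → Fin B → ℂ) (τ : ℝ) : Prop :=
  (∀ (q : ℕ) [NeZero q] (ε : ℝ), 0 < ε → ε ≤ 1 →
    ∑ χ : DirichletCharacter ℂ q, Real.log ‖LX γ χ (edge n τ + ε)‖ ^ 2 ≤
      C * (q.totient + Real.log (1 / ε) ^ 2)) ∧
  (∀ (q : ℕ) [NeZero q] (ε : ℝ), Real.exp (-Real.sqrt q.totient) ≤ ε → ε ≤ 1 → ∀ δ : ℝ, 0 < δ →
    ({χ : DirichletCharacter ℂ q | LX γ χ (edge n τ + ε) = 0 ∨
      C / Real.sqrt δ < |Real.log ‖LX γ χ (edge n τ + ε)‖|}.ncard : ℝ) ≤ δ * q.totient)

/-- The limit law: the random Euler product converges in law at the point `n/2 + 1 + iτ` of the edge, the limit is not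
`0` almost surely, and it is the limit in law of `L(H^n(X) ⊗ Θ ⊗ χ, n/2 + 1 + iτ + ε)`, `χ` a random character modulo
the prime number `q`, when `q → ∞` and `ε → 0` with `log (1 / ε) = o(√q)`. -/
def LimitLaw {B : ℕ} (n : ℕ) (γ : ℕ → Fin B → ℂ) (τ : ℝ) : Prop :=
  ∃ ν : Measure ℂ, IsLaw γ (edge n τ) ν ∧ ν {0} = 0 ∧
    ∀ (q : ℕ → ℕ), (∀ i, (q i).Prime) → Tendsto q atTop atTop →
      ∀ ε : ℕ → ℝ, (∀ i, 0 < ε i ∧ ε i ≤ 1) → Tendsto ε atTop (𝓝 0) →
      Tendsto (fun i => Real.log (1 / ε i) ^ 2 / q i) atTop (𝓝 0) →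
      ∀ Ψ : ℂ → ℝ, Continuous Ψ → (∃ M, ∀ z, |Ψ z| ≤ M) →
        Tendsto (fun i => (∑ χ : DirichletCharacter ℂ (q i), Ψ (LX γ χ (edge n τ + ε i))) /
          ((q i).totient : ℝ)) atTop (𝓝 (∫ z, Ψ z ∂ν))

/-- **The L-functions of `H^n(X) ⊗ Θ ⊗ χ` near the edge of convergence.** The constant `C` depends on the bound `B`
for the number of the eigenvalues only: for `n = 2` and trivial `Θ`, on the Betti number `b₂`. -/
theorem result : ∀ B : ℕ, ∃ C : ℝ, 0 < C ∧
    ∀ (N D p₀ : ℕ) (E : Set (MvPolynomial (Fin (N + 1)) ℤ)) (b : ℕ → ℕ) (β : ∀ _p k : ℕ, Fin (b k) → ℂ),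
      IsCohomology E D p₀ b β → ∀ (n ρ : ℕ) (θ : ℕ → Fin ρ → ℂ) (γ : ℕ → Fin B → ℂ),
      (∀ p i, ‖θ p i‖ ≤ 1) → IsAmbient n p₀ β θ γ →
      ∀ τ : ℝ, SizeBound C n γ τ ∧ LimitLaw n γ τ := by
  intro B
  obtain ⟨C₁, hC₁, h₁⟩ := second_moment B
  obtain ⟨C₂, hC₂, h₂⟩ := few B
  refine ⟨max C₁ C₂, lt_max_of_lt_left hC₁, fun N D p₀ E b β _ n ρ θ γ _ hγ τ =>
    ⟨⟨fun q hq ε h0 h1 => ?_, fun q hq ε h0 h1 δ hδ => ?_⟩, exists_law hγ.bound⟩⟩
  · refine (h₁ n τ γ hγ.bound q ε h0 h1).trans ?_
    gcongr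
    exact le_max_left _ _
  · refine le_trans ?_ (h₂ n τ γ hγ.bound q ε h0 h1 δ hδ)
    norm_cast
    apply Set.ncard_le_ncard _ (Set.toFinite _)
    intro χ hχ
    rcases hχ with hχ | hχ
    · exact Or.inl hχ
    · refine Or.inr (lt_of_le_of_lt ?_ hχ)
      gcongr
      exact le_max_right _ _

end Pool.Agent.Results.MP_1f4fc7_nt.DirichletTwistLaw
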