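import Mathlib
import Pool.Agent.L0h50.FI.Res

/-!
# The fibration form of Tate's conjecture and Tate's conjecture for the fibres

`𝒳 → U` is a smooth projective family of varieties over an open part `U : P ≠ 0` of affine space `𝔸^m` over `ℚ`, with an
integral model; it is an arbitrary fibration whose base is birational to `ℙ^m`, `m ≥ 1`, outside of the singular fibres.
(A family of varieties over a number field `k`, with a base birational to `ℙ^m` over `k`, is one with
`m [k : ℚ]` parameters over `ℚ`, by restriction of scalars of the base.)  `𝔅_p` is the average over the points of `U` over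
the field with `p` elements of the traces of the Frobenius on the `n`-th cohomology group of the fibres; `n = 2` in
the question.  The page (its section on what is known) says that the fibration form
`Res_{s=2} ∑_p 𝔅_p log(p) p^{-s} = rank NS(X/K)` of the conjecture implies the conjecture, where `X` is the generic fibre and
`K` is the function field of the base.

Here the fibration form is shown to be equivalent to Tate's conjecture for almost all the fibres `X_c`, `c ∈ ℤ^m`,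
`|c| ≤ H`, as far as the L-functions of the fibres can be seen at the distances between `1 / log H` and a small number
from the point `s = 2`; and this is uniform: for all `c` outside of an exceptional set of proportion `δ`,
`log |L(H^n(X_c) ⊗ Θ, s)|` differs from the real part of `∑_p 𝔅_p tr Θ(p) p^{-s}` by at most `(C (1 + T) / δ)^{1/2}` in the
whole rectangle `1 / log H ≤ Re s - n/2 - 1 ≤ 1`, `|Im s| ≤ T`, for every unitary `Θ` (for instance an Artin representation,
which may be induced from a number field `F`, or the normalised cohomology of a fixed variety `Y`, which gives the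
products `Y × X_c`), with `C` independent of `Θ`.

The starting results `LinearSystems` and `NearTheWholeLine` and my result `AmbientVariety` are about special families, the
members of linear systems and the complete intersections in a fixed variety, for which the averages `𝔅_p` are computed.
-/

set_option autoImplicit false

open Pool.Agent.Y722.HS Pool.Agent.L0h50.FI Filter Topology

namespace Pool.Agent.Results.MP_1f4fc7_nt.FibresOfFibrations

section
variable {N : ℕ} {ι : Type} [Fintype ι] [DecidableEq ι] {b : ℕ → ℕ}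

/-- The L-functions of `H^n(X_c) ⊗ Θ`, `c` in the box of the vectors with integer coordinates of absolute value
at most `H`, and the mean series: (1) mean square of the difference, at points which may depend on `c`; (2) the
difference in the whole rectangle for all `c` outside of an exceptional set of proportion `δ`. The constant depends
neither on `Θ` nor on `H` nor on `T`. -/
def NearMean (n p₀ : ℕ) (β : ∀ p : ℕ, (ι → ZMod p) → ∀ k : ℕ, Fin (b k) → ℂ) (P : MvPolynomial ι ℤ)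
    (ρ B : ℕ) : Prop :=
  ∃ C : ℝ, 0 < C ∧ ∀ θ : ℕ → Fin ρ → ℂ, (∀ p i, ‖θ p i‖ ≤ 1) → ∀ H : ℕ, 2 ≤ H → ∀ T : ℝ, 0 ≤ T →
    (∀ S ⊆ box ι H, ∀ (α : (ι → ℤ) → ℕ → Fin B → ℂ) (ε τ : (ι → ℤ) → ℝ),
      (∀ c ∈ S, IsFibre n p₀ β P θ c (α c)) →
      (∀ c ∈ S, 1 / Real.log H ≤ ε c ∧ ε c ≤ 1 ∧ |τ c| ≤ T) →
      ∑ c ∈ S, (Real.log ‖LP (α c) (n / 2 + 1 + ε c + τ c * Complex.I)‖ -
        (meanSeries n p₀ β P θ (n / 2 + 1 + ε c + τ c * Complex.I)).re) ^ 2 ≤
          C * (1 + T) * (box ι H).card) ∧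
    (∀ δ : ℝ, 0 < δ → ∃ X ⊆ box ι H, (X.card : ℝ) ≤ δ * (box ι H).card ∧
      ∀ c ∈ box ι H \ X, ∀ α : ℕ → Fin B → ℂ, IsFibre n p₀ β P θ c α → ∀ ε τ : ℝ,
        1 / Real.log H ≤ ε → ε ≤ 1 → |τ| ≤ T →
        LP α (n / 2 + 1 + ε + τ * Complex.I) ≠ 0 ∧
        |Real.log ‖LP α (n / 2 + 1 + ε + τ * Complex.I)‖ -
          (meanSeries n p₀ β P θ (n / 2 + 1 + ε + τ * Complex.I)).re| ≤ Real.sqrt (C * (1 + T) / δ))

/-- The fibration form of the conjecture with the number `r`, for real `s`, and without a continuation: the mean series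
`∑_p 𝔅_p p^{-s}` is `(r + o(1)) log(1/ε)` at `s = n/2 + 1 + ε`. -/
def FibrationForm (n p₀ : ℕ) (β : ∀ p : ℕ, (ι → ZMod p) → ∀ k : ℕ, Fin (b k) → ℂ) (P : MvPolynomial ι ℤ)
    (r : ℝ) : Prop :=
  Tendsto (fun ε : ℝ => (meanSeries n p₀ β P (fun _ _ => 1 : ℕ → Fin 1 → ℂ) (n / 2 + 1 + ε)).re /
    Real.log (1 / ε)) (𝓝[>] 0) (𝓝 r)

/-- Tate's conjecture with the number `r` for almost all fibres: for all `δ, η > 0` there is an `ε₀ > 0` such that for
all `H` and for all `c` in the box outside of an exceptional set of proportion `δ`, the L-function of `H^n(X_c)` behaves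
as if it had a pole of order `r` at `n/2 + 1`, up to `η`, at the distances between `1 / log H` and `ε₀`. -/
def FibreForm (n p₀ : ℕ) (β : ∀ p : ℕ, (ι → ZMod p) → ∀ k : ℕ, Fin (b k) → ℂ) (P : MvPolynomial ι ℤ)
    (r : ℝ) : Prop :=
  ∀ δ η : ℝ, 0 < δ → 0 < η → ∃ ε₀ : ℝ, 0 < ε₀ ∧ ε₀ < 1 ∧ ∀ H : ℕ, 2 ≤ H →
    ∃ X ⊆ box ι H, (X.card : ℝ) ≤ δ * (box ι H).card ∧ ∀ c ∈ box ι H \ X, ∀ α : ℕ → Fin (b n) → ℂ,
      IsFibre n p₀ β P (fun _ _ => 1 : ℕ → Fin 1 → ℂ) c α → ∀ ε : ℝ, 1 / Real.log H ≤ ε → ε ≤ ε₀ →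
        |Real.log ‖LP α (n / 2 + 1 + ε)‖ - r * Real.log (1 / ε)| ≤ η * Real.log (1 / ε)

/-- The same, with a bounded error at all the distances between `1 / log H` and `1`. -/
def BoundedFibreForm (n p₀ : ℕ) (β : ∀ p : ℕ, (ι → ZMod p) → ∀ k : ℕ, Fin (b k) → ℂ)
    (P : MvPolynomial ι ℤ) (r : ℝ) : Prop :=
  ∃ C : ℝ, 0 < C ∧ ∀ H : ℕ, 2 ≤ H → ∀ δ : ℝ, 0 < δ → δ ≤ 1 →
    ∃ X ⊆ box ι H, (X.card : ℝ) ≤ δ * (box ι H).card ∧ ∀ c ∈ box ι H \ X, ∀ α : ℕ → Fin (b n) → ℂ,
      IsFibre n p₀ β P (fun _ _ => 1 : ℕ → Fin 1 → ℂ) c α → ∀ ε : ℝ, 1 / Real.log H ≤ ε → ε ≤ 1 →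
        |Real.log ‖LP α (n / 2 + 1 + ε)‖ - r * Real.log (1 / ε)| ≤ C / Real.sqrt δ

variable {β : ∀ p : ℕ, (ι → ZMod p) → ∀ k : ℕ, Fin (b k) → ℂ} {P : MvPolynomial ι ℤ}
  {E : Set (MvPolynomial (Fin (N + 1)) (MvPolynomial ι ℤ))} {D n p₀ : ℕ}

lemma near (h : IsFibration E P D p₀ b β) (hP : P ≠ 0) (ρ B : ℕ) : NearMean n p₀ β P ρ B := by
  classical
  obtain ⟨C, hC, hM⟩ := majorant h hP (n := n) ρ B
  refine ⟨C, hC, fun θ hθ H hH T hT => ?_⟩
  obtain ⟨M, hM0, hM1, hM2⟩ := hM θ hθ H hH T hT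
  have hsum : ∑ c ∈ box ι H, M c ≤ C * (1 + T) * (box ι H).card := by
    calc _ = EB H M * (box ι H).card := by
          rw [EB, card_box]
          field_simp
      _ ≤ _ := by gcongr
  refine ⟨fun S hS α ε τ hα hε => ?_, fun δ hδ => ?_⟩
  · calc _ ≤ ∑ c ∈ S, M c := Finset.sum_le_sum fun c hc =>
          hM2 c (α c) (ε c) (τ c) (hα c hc) (hε c hc).1 (hε c hc).2.1 (hε c hc).2.2
      _ ≤ ∑ c ∈ box ι H, M c := Finset.sum_le_sum_of_subset_of_nonneg hS fun c _ _ => hM0 c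
      _ ≤ _ := hsum
  · have hCT : 0 < C * (1 + T) := by positivity
    refine ⟨(box ι H).filter (fun c => C * (1 + T) / δ < M c), Finset.filter_subset _ _, ?_, ?_⟩
    · have h1 : (((box ι H).filter (fun c => C * (1 + T) / δ < M c)).card : ℝ) *
          (C * (1 + T) / δ) ≤ ∑ c ∈ (box ι H).filter (fun c => C * (1 + T) / δ < M c), M c := by
        rw [← nsmul_eq_mul]
        exact Finset.card_nsmul_le_sum _ _ _ fun c hc => (Finset.mem_filter.mp hc).2.le
      have h2 : ∑ c ∈ (box ι H).filter (fun c => C * (1 + T) / δ < M c), M c ≤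
          ∑ c ∈ box ι H, M c :=
        Finset.sum_le_sum_of_subset_of_nonneg (Finset.filter_subset _ _) fun c _ _ => hM0 c
      have h3 := (h1.trans h2).trans hsum
      rw [mul_div_assoc', div_le_iff₀ hδ] at h3
      have h4 : (C * (1 + T)) * (((box ι H).filter (fun c => C * (1 + T) / δ < M c)).card : ℝ) ≤
          (C * (1 + T)) * (δ * (box ι H).card) := by linarith
      exact le_of_mul_le_mul_left h4 hCT
    · intro c hc α hα ε τ hε0 hε1 hτ
      rw [Finset.mem_sdiff, Finset.mem_filter, not_and, not_lt] at hc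
      have h1 := hM2 c α ε τ hα hε0 hε1 hτ
      have h2 := h1.trans (hc.2 hc.1)
      have hlogH : 0 < Real.log H := Real.log_pos (by exact_mod_cast (by omega : 1 < H))
      have hεp : 0 < ε := lt_of_lt_of_le (by positivity) hε0
      have hne : LP α (n / 2 + 1 + ε + τ * Complex.I) ≠ 0 := by
        have hs1 : ss (n + 1) ε = (n : ℂ) / 2 + 1 + ε := by
          unfold ss
          push_cast
          ring
        have hbound : ∀ p : ℕ, p.Prime → ∀ j,
            ‖Pool.Agent.N534.TL.twist α τ p j‖ ≤ (p : ℝ) ^ ((((n + 1 : ℕ) : ℝ) - 1) / 2) := by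
          intro p hp j
          have e : (((n + 1 : ℕ) : ℝ) - 1) / 2 = (n : ℝ) / 2 := by push_cast; ring
          rw [e, Pool.Agent.N534.TL.twist_norm α τ p hp]
          exact hα.bound p hp j
        rw [← hs1, ← Pool.Agent.N534.TL.LP_twist, LP_eq hεp hbound]
        exact Complex.exp_ne_zero _
      exact ⟨hne, Real.abs_le_sqrt h2⟩

/-- The eigenvalues at the good primes, and zeros at the bad ones. -/
lemma exists_fibre (h : IsFibration E P D p₀ b β) (c : ι → ℤ) : ∃ α : ℕ → Fin (b n) → ℂ,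
    IsFibre n p₀ β P (fun _ _ => 1 : ℕ → Fin 1 → ℂ) c α := by
  classical
  refine ⟨fun p j => if p₀ ≤ p ∧ at' P p (red p c) ≠ 0 then β p (red p c) n j else 0, ?_, ?_⟩
  · intro p hp j
    split_ifs with h1
    · exact (h.weight p hp h1.1 _ h1.2 n j).le
    · rw [norm_zero]
      positivity
  · intro p hp hp₀ hd e he
    have h1 : p₀ ≤ p ∧ at' P p (red p c) ≠ 0 := ⟨hp₀, fun h2 => hd ((at_iff p c).mp h2)⟩
    simp [if_pos h1]

lemma box_pos (H : ℕ) : (0 : ℝ) < (box ι H).card := by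
  have h1 : (0 : ι → ℤ) ∈ box ι H := by
    unfold box IH
    rw [Fintype.mem_piFinset]
    intro i
    rw [Finset.mem_Icc]
    simp
  exact_mod_cast Finset.card_pos.mpr ⟨_, h1⟩

lemma one_series (ε : ℝ) : meanSeries n p₀ β P (fun _ _ => 1 : ℕ → Fin 1 → ℂ) (n / 2 + 1 + ε) =
    ∑' p : Nat.Primes, fibreMean n p₀ β P p * ((p : ℕ) : ℂ) ^ (-((n : ℂ) / 2 + 1 + ε)) := by
  unfold meanSeries
  simp

/-- The difference is bounded, at real points. -/
lemma near_real (h : IsFibration E P D p₀ b β) (hP : P ≠ 0) : ∃ C : ℝ, 0 < C ∧ ∀ H : ℕ, 2 ≤ H →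
    ∀ δ : ℝ, 0 < δ → ∃ X ⊆ box ι H, (X.card : ℝ) ≤ δ * (box ι H).card ∧ ∀ c ∈ box ι H \ X,
      ∀ α : ℕ → Fin (b n) → ℂ, IsFibre n p₀ β P (fun _ _ => 1 : ℕ → Fin 1 → ℂ) c α → ∀ ε : ℝ,
        1 / Real.log H ≤ ε → ε ≤ 1 → |Real.log ‖LP α (n / 2 + 1 + ε)‖ -
          (meanSeries n p₀ β P (fun _ _ => 1 : ℕ → Fin 1 → ℂ) (n / 2 + 1 + ε)).re| ≤ C / Real.sqrt δ := by
  obtain ⟨C, hC, h1⟩ := near h hP (n := n) 1 (b n)
  refine ⟨Real.sqrt C, Real.sqrt_pos.mpr hC, fun H hH δ hδ => ?_⟩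
  obtain ⟨X, hX, hX1, hX2⟩ := (h1 (fun _ _ => 1) (fun _ _ => by simp) H hH 0 le_rfl).2 δ hδ
  refine ⟨X, hX, hX1, fun c hc α hα ε hε hε1 => ?_⟩
  obtain ⟨-, g1⟩ := hX2 c hc α hα ε 0 hε hε1 (by simp)
  simp only [Complex.ofReal_zero, zero_mul, add_zero, mul_one] at g1
  rwa [Real.sqrt_div hC.le] at g1

lemma log_big (M : ℝ) : ∃ ε₁ : ℝ, 0 < ε₁ ∧ ε₁ < 1 ∧ ∀ ε : ℝ, 0 < ε → ε ≤ ε₁ → M ≤ Real.log (1 / ε) := by
  refine ⟨Real.exp (-(|M| + 1)), Real.exp_pos _, ?_, fun ε hε h => ?_⟩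
  · rw [Real.exp_lt_one_iff]
    have := abs_nonneg M
    linarith
  · have h1 := Real.log_le_log hε h
    rw [Real.log_exp] at h1
    rw [one_div, Real.log_inv]
    have := le_abs_self M
    linarith

lemma forward (h : IsFibration E P D p₀ b β) (hP : P ≠ 0) {r : ℝ} (hr : FibrationForm n p₀ β P r) :
    FibreForm n p₀ β P r := by
  intro δ η hδ hη
  obtain ⟨C, hC, h1⟩ := near_real h hP (n := n)
  obtain ⟨ε₁, hε₁, hε₁1, h2⟩ := log_big (C / Real.sqrt δ / (η / 2))
  have h3 : ∀ᶠ ε : ℝ in 𝓝[>] 0, |(meanSeries n p₀ β P (fun _ _ => 1 : ℕ → Fin 1 → ℂ) (n / 2 + 1 + ε)).re /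
      Real.log (1 / ε) - r| < η / 2 := by
    have := (Metric.tendsto_nhds.mp hr) (η / 2) (by positivity)
    simpa [Real.dist_eq] using this
  rw [eventually_nhdsWithin_iff, Metric.eventually_nhds_iff] at h3
  obtain ⟨e₀, he₀, h4⟩ := h3
  refine ⟨min ε₁ (e₀ / 2), by positivity, lt_of_le_of_lt (min_le_left _ _) hε₁1, fun H hH => ?_⟩
  obtain ⟨X, hX, hX1, hX2⟩ := h1 H hH δ hδ
  refine ⟨X, hX, hX1, fun c hc α hα ε hε hε0 => ?_⟩
  have hlogH : 0 < Real.log H := Real.log_pos (by exact_mod_cast (by omega : 1 < H))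
  have hεp : 0 < ε := lt_of_lt_of_le (by positivity) hε
  have hεε₁ : ε ≤ ε₁ := hε0.trans (min_le_left _ _)
  have hεe₀ : ε < e₀ := lt_of_le_of_lt (hε0.trans (min_le_right _ _)) (by linarith)
  have g1 := hX2 c hc α hα ε hε (by linarith)
  have g2 := h2 ε hεp hεε₁
  have hl : 0 < Real.log (1 / ε) := Real.log_pos (by rw [lt_div_iff₀ hεp]; linarith)
  have g3 := h4 (y := ε) (by rw [Real.dist_eq, sub_zero, abs_of_pos hεp]; exact hεe₀) hεp
  set Mr := (meanSeries n p₀ β P (fun _ _ => 1 : ℕ → Fin 1 → ℂ) (n / 2 + 1 + ε)).re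
  have g4 : |Mr - r * Real.log (1 / ε)| ≤ η / 2 * Real.log (1 / ε) := by
    have e : Mr - r * Real.log (1 / ε) = (Mr / Real.log (1 / ε) - r) * Real.log (1 / ε) := by
      field_simp
    rw [e, abs_mul, abs_of_pos hl]
    gcongr
  have g5 : C / Real.sqrt δ ≤ η / 2 * Real.log (1 / ε) := by
    rw [div_le_iff₀ (by positivity)] at g2
    linarith
  have := abs_sub_le (Real.log ‖LP α (n / 2 + 1 + ε)‖) Mr (r * Real.log (1 / ε))
  linarith

lemma backward (h : IsFibration E P D p₀ b β) (hP : P ≠ 0) {r : ℝ} (hr : FibreForm n p₀ β P r) :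
    FibrationForm n p₀ β P r := by
  classical
  unfold FibrationForm
  rw [Metric.tendsto_nhds]
  intro η hη
  obtain ⟨C, hC, h1⟩ := near_real h hP (n := n)
  obtain ⟨ε₀, hε₀, hε₀1, h2⟩ := hr (1 / 3) (η / 4) (by norm_num) (by positivity)
  obtain ⟨ε₁, hε₁, hε₁1, h3⟩ := log_big (C / Real.sqrt (1 / 3) / (η / 4))
  rw [eventually_nhdsWithin_iff, Metric.eventually_nhds_iff]
  refine ⟨min ε₀ ε₁, by positivity, fun ε hd hε => ?_⟩
  have hε : 0 < ε := hε
  rw [Real.dist_eq, sub_zero, abs_of_pos hε] at hd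
  have hεε₀ : ε < ε₀ := lt_of_lt_of_le hd (min_le_left _ _)
  have hεε₁ : ε < ε₁ := lt_of_lt_of_le hd (min_le_right _ _)
  obtain ⟨H, hH⟩ := exists_nat_ge (Real.exp (1 / ε))
  have hH1 : 1 / ε ≤ Real.log H := by
    rw [Real.le_log_iff_exp_le (lt_of_lt_of_le (Real.exp_pos _) hH)]
    exact hH
  have hH2 : 2 ≤ H := by
    have h4 : (1 : ℝ) < 1 / ε := by rw [lt_div_iff₀ hε]; linarith
    have h5 : Real.exp 1 ≤ H := (Real.exp_le_exp.mpr h4.le).trans hH
    have h6 : (2 : ℝ) ≤ H := by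
      have := Real.add_one_le_exp (1 : ℝ)
      linarith
    exact_mod_cast h6
  have hlogH : 0 < Real.log H := lt_of_lt_of_le (by positivity) hH1
  have hHε : 1 / Real.log H ≤ ε := by
    rw [div_le_iff₀ hlogH]
    rw [div_le_iff₀ hε] at hH1
    linarith
  obtain ⟨X, hX, hX1, hX2⟩ := h1 H hH2 (1 / 3) (by norm_num)
  obtain ⟨Y, hY, hY1, hY2⟩ := h2 H hH2
  have hbox := box_pos (ι := ι) H
  obtain ⟨c, hc, hcX, hcY⟩ : ∃ c ∈ box ι H, c ∉ X ∧ c ∉ Y := by
    by_contra hcon
    push Not at hcon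
    have h4 : box ι H ⊆ X ∪ Y := fun c hc => by
      rw [Finset.mem_union]
      by_cases hcX : c ∈ X
      · exact Or.inl hcX
      · exact Or.inr (hcon c hc hcX)
    have h5 : ((box ι H).card : ℝ) ≤ X.card + Y.card := by
      exact_mod_cast (Finset.card_le_card h4).trans (Finset.card_union_le X Y)
    linarith
  obtain ⟨α, hα⟩ := exists_fibre h (n := n) c
  have g1 := hX2 c (Finset.mem_sdiff.mpr ⟨hc, hcX⟩) α hα ε hHε (by linarith)
  have g2 := hY2 c (Finset.mem_sdiff.mpr ⟨hc, hcY⟩) α hα ε hHε hεε₀.le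
  have g3 := h3 ε hε hεε₁.le
  have hl : 0 < Real.log (1 / ε) := Real.log_pos (by rw [lt_div_iff₀ hε]; linarith)
  set Mr := (meanSeries n p₀ β P (fun _ _ => 1 : ℕ → Fin 1 → ℂ) (n / 2 + 1 + ε)).re
  have g5 : C / Real.sqrt (1 / 3) ≤ η / 4 * Real.log (1 / ε) := by
    rw [div_le_iff₀ (by positivity)] at g3
    linarith
  have g6 : |Mr - r * Real.log (1 / ε)| ≤ η / 2 * Real.log (1 / ε) := by
    have := abs_sub_le Mr (Real.log ‖LP α (n / 2 + 1 + ε)‖) (r * Real.log (1 / ε))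
    rw [abs_sub_comm] at g1
    linarith
  rw [Real.dist_eq]
  have e : Mr / Real.log (1 / ε) - r = (Mr - r * Real.log (1 / ε)) / Real.log (1 / ε) := by
    field_simp
  rw [e, abs_div, abs_of_pos hl, div_lt_iff₀ hl]
  have : η / 2 * Real.log (1 / ε) < η * Real.log (1 / ε) := by
    apply mul_lt_mul_of_pos_right _ hl
    linarith
  linarith

lemma residue_case (h : IsFibration E P D p₀ b β) (hP : P ≠ 0) {r : ℝ}
    (hr : Residue n (fibreMean n p₀ β P) r) : FibrationForm n p₀ β P r ∧ BoundedFibreForm n p₀ β P r := by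
  obtain ⟨C₁, hC₁, h₁⟩ := residue_near (n := n) (K := b n) (fun p hp => norm_mean h p hp) hr
  constructor
  · unfold FibrationForm
    rw [Metric.tendsto_nhds]
    intro η hη
    obtain ⟨ε₁, hε₁, hε₁1, h3⟩ := log_big ((C₁ + 1) / η)
    rw [eventually_nhdsWithin_iff, Metric.eventually_nhds_iff]
    refine ⟨ε₁, hε₁, fun ε hd hε => ?_⟩
    have hε : 0 < ε := hε
    rw [Real.dist_eq, sub_zero, abs_of_pos hε] at hd
    have g1 := h₁ ε hε (by linarith)
    have g3 := h3 ε hε hd.le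
    have hl : 0 < Real.log (1 / ε) := Real.log_pos (by rw [lt_div_iff₀ hε]; linarith)
    rw [one_series, Real.dist_eq]
    set Mr := (∑' p : Nat.Primes, fibreMean n p₀ β P p * ((p : ℕ) : ℂ) ^ (-((n : ℂ) / 2 + 1 + ε))).re
    have e : Mr / Real.log (1 / ε) - r = (Mr - r * Real.log (1 / ε)) / Real.log (1 / ε) := by
      field_simp
    rw [e, abs_div, abs_of_pos hl, div_lt_iff₀ hl]
    rw [div_le_iff₀ hη] at g3
    linarith
  · obtain ⟨C, hC, h1⟩ := near_real h hP (n := n)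
    refine ⟨C + C₁, by positivity, fun H hH δ hδ hδ1 => ?_⟩
    obtain ⟨X, hX, hX1, hX2⟩ := h1 H hH δ hδ
    refine ⟨X, hX, hX1, fun c hc α hα ε hε hε1 => ?_⟩
    have hlogH : 0 < Real.log H := Real.log_pos (by exact_mod_cast (by omega : 1 < H))
    have hεp : 0 < ε := lt_of_lt_of_le (by positivity) hε
    have g1 := hX2 c hc α hα ε hε hε1
    have g2 := h₁ ε hεp hε1
    rw [one_series] at g1
    have g4 : 0 < Real.sqrt δ := Real.sqrt_pos.mpr hδ
    have g5 : Real.sqrt δ ≤ 1 := by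
      rw [← Real.sqrt_one]
      exact Real.sqrt_le_sqrt hδ1
    have g6 : C₁ ≤ C₁ / Real.sqrt δ := by
      rw [le_div_iff₀ g4]
      exact mul_le_of_le_one_right hC₁ g5
    have g7 := abs_sub_le (Real.log ‖LP α (n / 2 + 1 + ε)‖)
      (∑' p : Nat.Primes, fibreMean n p₀ β P p * ((p : ℕ) : ℂ) ^ (-((n : ℂ) / 2 + 1 + ε))).re
      (r * Real.log (1 / ε))
    rw [add_div]
    linarith

end

/-- **The fibration form of Tate's conjecture and Tate's conjecture for the fibres.** Let `𝒳` be a smooth projective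
family of varieties over the open part `P ≠ 0` of an affine space over `ℚ`, with a good integral model outside of the
primes `p < p₀`.
(1) For every unitary `Θ`, the L-functions of `H^n(X_c) ⊗ Θ` near the line `Re s = n/2 + 1` are given by the averages `𝔅_p`,
for most integral points `c`, in mean square and in the whole rectangle `1 / log H ≤ Re s - n/2 - 1 ≤ 1`, `|Im s| ≤ T`.
(2) For every number `r`, the fibration form of the conjecture with the number `r` holds if and only if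
Tate's conjecture with the number `r` holds for almost all fibres.
(3) If `∑_p 𝔅_p log(p) p^{-s}` has a meromorphic continuation to a neighbourhood of `s = n/2 + 1` with the residue `r`,
then both hold, the second one with a bounded error. -/
theorem result {N : ℕ} {ι : Type} [Fintype ι] [DecidableEq ι]
    (E : Set (MvPolynomial (Fin (N + 1)) (MvPolynomial ι ℤ))) (P : MvPolynomial ι ℤ) (hP : P ≠ 0) (D p₀ : ℕ)
    (b : ℕ → ℕ) (β : ∀ p : ℕ, (ι → ZMod p) → ∀ k : ℕ, Fin (b k) → ℂ) (h : IsFibration E P D p₀ b β) (n : ℕ) :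
    (∀ ρ B : ℕ, NearMean n p₀ β P ρ B) ∧
    (∀ r : ℝ, FibrationForm n p₀ β P r ↔ FibreForm n p₀ β P r) ∧
    (∀ r : ℝ, Residue n (fibreMean n p₀ β P) r → FibrationForm n p₀ β P r ∧ BoundedFibreForm n p₀ β P r) :=
  ⟨fun ρ B => near h hP ρ B, fun _ => ⟨forward h hP, backward h hP⟩, fun _ hr => residue_case h hP hr⟩

end Pool.Agent.Results.MP_1f4fc7_nt.FibresOfFibrations
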