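import Mathlib
import Pool.Agent.L0h50.AB.Rank

/-!
# The products of the curves of pencils of hyperelliptic curves, at the integral points

Let `C_i : Y² = c_i(t; X) + w b_i(t; X)`, `i < m`, be hyperelliptic curves of the genera `g_i` whose equations are
polynomials with integer coefficients in the parameters `t_j`, `j ∈ σ`, of degree one in the parameter `w`; `c_i` is monic
in `X` of degree `2 g_i + 1`, `b_i ≠ 0` is of smaller degree, and the generic curves over `K = ℚ(t, w)` are
smooth. Let `X = C_1 × ... × C_m`, and let `X_x` be the member of this family at the integral point `x = (t, w)`.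

The algebraic side. The generic curve `C_i` has a rational point at infinity. Thus
`NS(X/K) ⊗ ℚ = ℚ^m ⊕ ⨁_{i < j} Hom_K(J_i, J_j) ⊗ ℚ` (the divisors over `K`) and
`Hom_K(J_i, J_j) = J_j(K(C_i)) / J_j(K)`, where `J_i` is the Jacobian of `C_i`, so that
`rank NS(X/K) = m + ∑_{i < j} (n₂ i j - n₁ j)` with the ranks `n₁ j` of `J_j(K)` and `n₂ i j` of `J_j(K(C_i))`; for every field
`K₁ ⊇ K` the group `J_j(K₁)` is the class group of the ring `K₁[X, Y] / (Y² - F_j(X))`. These ranks are finite.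

The analytic side. For all integral points `x` in the box `|x| ≤ H` outside of an exceptional set of proportion `δ`,
the L-function `L₂(s, X_x)` behaves in the whole rectangle `1 / log H ≤ Re s - 2 ≤ 1`, `|Im s| ≤ T`, as a function which has a
pole of the order `rank NS(X/K)` at `s = 2` and no other zero and pole on the line `Re s = 2`: the logarithm of its absolute
value is `r log(1 / |s - 2|)` up to a bounded error.

The starting result `MP_223b32_ag.ProductsOfPencils` gives the algebraic side (which is proved again here from the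
same lemmas), and the order of the pole of the L-function over `K` (the Euler product over all the closed points of a model).
-/

set_option autoImplicit false

open Pool.Agent.Y722.HS Pool.Agent.L0h50.AB Polynomial

namespace Pool.Agent.Results.MP_1f4fc7_nt.ProductsOfPencils

section
variable {σ : Type} [Fintype σ] [DecidableEq σ] {m : ℕ}

/-- The L-functions of `H²` of the members `X_x`, for the points `x` of the box of the vectors with integer
coordinates of absolute value at most `H`, behave as `(s - 2)^{-r}`: (1) in mean square, at points `s` which may depend on `x`;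
(2) in the whole rectangle, for all `x` outside of an exceptional set of proportion `δ`. -/
def PoleInTheMean (b c : Fin m → (MvPolynomial σ ℤ)[X]) (P : MvPolynomial (Option σ) ℤ) (p₀ B : ℕ) (T r : ℝ) :
    Prop :=
  ∃ C : ℝ, 0 < C ∧ ∀ H : ℕ, 2 ≤ H →
    (∀ S ⊆ box (Option σ) H, ∀ (γ : (Option σ → ℤ) → ℕ → Fin B → ℂ) (ε τ : (Option σ → ℤ) → ℝ),
      (∀ x ∈ S, IsMember b c P p₀ x (γ x)) → (∀ x ∈ S, 1 / Real.log H ≤ ε x ∧ ε x ≤ 1 ∧ |τ x| ≤ T) →
      ∑ x ∈ S, (Real.log ‖LP (γ x) (2 + ε x + τ x * Complex.I)‖ -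
        r * Real.log (1 / ‖(ε x : ℂ) + τ x * Complex.I‖)) ^ 2 ≤ C * (box (Option σ) H).card) ∧
    (∀ δ : ℝ, 0 < δ → ∃ Y ⊆ box (Option σ) H, (Y.card : ℝ) ≤ δ * (box (Option σ) H).card ∧
      ∀ x ∈ box (Option σ) H \ Y, ∀ γ : ℕ → Fin B → ℂ, IsMember b c P p₀ x γ → ∀ ε τ : ℝ,
        1 / Real.log H ≤ ε → ε ≤ 1 → |τ| ≤ T →
        LP γ (2 + ε + τ * Complex.I) ≠ 0 ∧
        |Real.log ‖LP γ (2 + ε + τ * Complex.I)‖ - r * Real.log (1 / ‖(ε : ℂ) + τ * Complex.I‖)| ≤
          Real.sqrt (C / δ))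

variable {b c : Fin m → (MvPolynomial σ ℤ)[X]} {P : MvPolynomial (Option σ) ℤ} {p₀ : ℕ}

lemma member_map (p : ℕ) (x : Option σ → ℤ) (i : Fin m) :
    (member (b i) (c i) x).map (Int.castRingHom (ZMod p)) = gy b c p (red p x) i := by
  unfold member gy
  have h : (Int.castRingHom (ZMod p)).comp (MvPolynomial.eval fun i => x (some i)) =
      MvPolynomial.eval₂Hom (Int.castRingHom (ZMod p)) fun i => red p x (some i) := by
    refine MvPolynomial.ringHom_ext (fun r => ?_) fun j => ?_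
    · simp
    · simp [red]
  rw [Polynomial.map_add, Polynomial.map_mul, Polynomial.map_map, Polynomial.map_map, h, Polynomial.map_C]
  rfl

lemma traceOne_eq (G : ℤ[X]) (p : ℕ) [Fact p.Prime] :
    (traceOne G p 1 : ℝ) = Pool.Agent.R410.NG.trc (ZMod p) (G.map (Int.castRingHom (ZMod p))) := by
  have h1 := Pool.Agent.R410.NG.trc_iso (GaloisField.equivZmodP p).toRingEquiv
    (G.map (Int.castRingHom (GaloisField p 1)))
  rw [Polynomial.map_map] at h1
  have h2 : ((GaloisField.equivZmodP p).toRingEquiv : GaloisField p 1 →+* ZMod p).comp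
      (Int.castRingHom (GaloisField p 1)) = Int.castRingHom (ZMod p) := RingHom.ext_int _ _
  rw [h2] at h1
  rw [h1]
  unfold traceOne Pool.Agent.R410.NG.trc points
  rw [GaloisField.card p 1 one_ne_zero]
  push_cast
  congr 3
  refine congrArg _ (funext fun P => ?_)
  rw [Polynomial.aeval_def, Polynomial.eval_map]
  rfl

lemma traceTwo_eq (x : Option σ → ℤ) (p : ℕ) [Fact p.Prime] :
    ((traceTwo (fun i => member (b i) (c i) x) p 1 : ℤ) : ℂ) = ty b c p (red p x) := by
  have hp0 : (p : ℝ) ≠ 0 := by exact_mod_cast (Fact.out : p.Prime).ne_zero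
  unfold ty
  rw [wy_eq]
  have h : ((traceTwo (fun i => member (b i) (c i) x) p 1 : ℤ) : ℝ) =
      (p : ℝ) * Pool.Agent.R410.NG.w2 m (ZMod p) (gy b c p (red p x)) := by
    unfold traceTwo Pool.Agent.R410.NG.w2
    rw [Nat.card_zmod, mul_add, ← mul_assoc (p : ℝ) ((p : ℝ)⁻¹), mul_inv_cancel₀ hp0, one_mul]
    push_cast
    rw [pow_one, mul_comm (m : ℝ)]
    congr 1
    refine Finset.sum_congr rfl fun i _ => Finset.sum_congr rfl fun j _ => ?_
    split_ifs
    · rw [traceOne_eq, traceOne_eq, member_map, member_map]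
    · rfl
  exact_mod_cast congrArg (fun z : ℝ => (z : ℂ)) h

lemma mem_of (x : Option σ → ℤ) {B : ℕ} {γ : ℕ → Fin B → ℂ} (h : IsMember b c P p₀ x γ) :
    Mem 2 p₀ (ty b c) P (fun _ _ => 1 : ℕ → Fin 1 → ℂ) x γ := by
  refine ⟨fun p hp j => ?_, fun p hp hp₀ hd => ?_⟩
  · have e : (((2 : ℕ) : ℝ) / 2) = 1 := by norm_num
    rw [e, Real.rpow_one]
    exact h.bound p hp j
  · have := Fact.mk hp
    have h1 := h.power p hp₀ hd 1 le_rfl
    simp only [pow_one] at h1
    rw [h1, traceTwo_eq]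
    simp

lemma mean_pole {g : Fin m → ℕ} (hc : ∀ i, (c i).Monic)
    (hcd : ∀ i, (c i).natDegree = 2 * g i + 1) (hb : ∀ i, (b i).natDegree < 2 * g i + 1)
    (hb0 : ∀ i, b i ≠ 0) (hs : ∀ i, (generic (b i) (c i)).Separable) (hP : P ≠ 0) (p₀ B : ℕ) (T : ℝ) (hT : 0 ≤ T) :
    PoleInTheMean b c P p₀ B T ((m : ℝ) + ∑ i, ∑ j, if i < j then ((r2 b c i j : ℝ) - r1 b c j) else 0) := by
  classical
  set r : ℝ := (m : ℝ) + ∑ i, ∑ j, if i < j then ((r2 b c i j : ℝ) - r1 b c j) else 0 with hr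
  obtain ⟨C₁, hC₁, h₁⟩ := ms_log hcd hc hb hb0 hs hP p₀ T
  obtain ⟨C₂, hC₂, h₂⟩ := majorant (bd hc hcd hb p₀ P) hP 1 B
  set C : ℝ := 2 * (C₂ * (1 + T)) + 2 * C₁ ^ 2 with hC
  have hC0 : 0 < C := by positivity
  refine ⟨C, hC0, fun H hH => ?_⟩
  obtain ⟨M, hM0, hM1, hM2⟩ := h₂ (fun _ _ => 1) (fun _ _ => by simp) H hH T hT
  have hlogH : 0 < Real.log H := Real.log_pos (by exact_mod_cast (by omega : 1 < H))
  -- the majorant
  have hmain : ∀ (x : Option σ → ℤ) (γ : ℕ → Fin B → ℂ) (ε τ : ℝ), IsMember b c P p₀ x γ →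
      1 / Real.log H ≤ ε → ε ≤ 1 → |τ| ≤ T →
      (Real.log ‖LP γ (2 + ε + τ * Complex.I)‖ - r * Real.log (1 / ‖(ε : ℂ) + τ * Complex.I‖)) ^ 2 ≤
        2 * M x + 2 * C₁ ^ 2 := by
    intro x γ ε τ hγ hε hε1 hτ
    have hεp : 0 < ε := lt_of_lt_of_le (by positivity) hε
    have g1 := hM2 x γ ε τ (mem_of x hγ) hε hε1 hτ
    have g2 := h₁ ε τ hεp hε1 hτ
    have e1 : (((2 : ℕ) : ℂ) / 2 + 1 + ε + τ * Complex.I) = 2 + ε + τ * Complex.I := by
      push_cast
      ring
    rw [e1] at g1 g2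
    set u := Real.log ‖LP γ (2 + ε + τ * Complex.I)‖
    set v := (ms p₀ (ty b c) P (fun _ _ => 1 : ℕ → Fin 1 → ℂ) (2 + ε + τ * Complex.I)).re
    set z := r * Real.log (1 / ‖(ε : ℂ) + τ * Complex.I‖)
    have g3 : (v - z) ^ 2 ≤ C₁ ^ 2 := by
      rw [← sq_abs]
      exact pow_le_pow_left₀ (abs_nonneg _) g2 2
    nlinarith [sq_nonneg ((u - v) - (v - z))]
  have hsum : ∑ x ∈ box (Option σ) H, (2 * M x + 2 * C₁ ^ 2) ≤ C * (box (Option σ) H).card := by
    have h3 : ∑ x ∈ box (Option σ) H, M x ≤ C₂ * (1 + T) * (box (Option σ) H).card := by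
      calc _ = EB H M * (box (Option σ) H).card := by
            rw [EB, card_box]
            field_simp
        _ ≤ _ := by gcongr
    rw [Finset.sum_add_distrib, ← Finset.mul_sum, Finset.sum_const, nsmul_eq_mul, hC]
    linarith
  refine ⟨fun S hS γ ε τ hγ hε => ?_, fun δ hδ => ?_⟩
  · calc _ ≤ ∑ x ∈ S, (2 * M x + 2 * C₁ ^ 2) := Finset.sum_le_sum fun x hx =>
          hmain x (γ x) (ε x) (τ x) (hγ x hx) (hε x hx).1 (hε x hx).2.1 (hε x hx).2.2
      _ ≤ ∑ x ∈ box (Option σ) H, (2 * M x + 2 * C₁ ^ 2) :=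
          Finset.sum_le_sum_of_subset_of_nonneg hS fun x _ _ => by
            have := hM0 x
            positivity
      _ ≤ _ := hsum
  · refine ⟨(box (Option σ) H).filter (fun x => C / δ < 2 * M x + 2 * C₁ ^ 2), Finset.filter_subset _ _,
      ?_, ?_⟩
    · have h1 : (((box (Option σ) H).filter (fun x => C / δ < 2 * M x + 2 * C₁ ^ 2)).card : ℝ) * (C / δ) ≤
          ∑ x ∈ (box (Option σ) H).filter (fun x => C / δ < 2 * M x + 2 * C₁ ^ 2), (2 * M x + 2 * C₁ ^ 2) := by
        rw [← nsmul_eq_mul]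
        exact Finset.card_nsmul_le_sum _ _ _ fun x hx => (Finset.mem_filter.mp hx).2.le
      have h2 : ∑ x ∈ (box (Option σ) H).filter (fun x => C / δ < 2 * M x + 2 * C₁ ^ 2), (2 * M x + 2 * C₁ ^ 2) ≤
          ∑ x ∈ box (Option σ) H, (2 * M x + 2 * C₁ ^ 2) :=
        Finset.sum_le_sum_of_subset_of_nonneg (Finset.filter_subset _ _) fun x _ _ => by
          have := hM0 x
          positivity
      have h3 := (h1.trans h2).trans hsum
      rw [mul_div_assoc', div_le_iff₀ hδ] at h3
      have h4 : C * (((box (Option σ) H).filter (fun x => C / δ < 2 * M x + 2 * C₁ ^ 2)).card : ℝ) ≤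
          C * (δ * (box (Option σ) H).card) := by linarith
      exact le_of_mul_le_mul_left h4 hC0
    · intro x hx γ hγ ε τ hε hε1 hτ
      rw [Finset.mem_sdiff, Finset.mem_filter, not_and, not_lt] at hx
      have h1 := hmain x γ ε τ hγ hε hε1 hτ
      have h2 := h1.trans (hx.2 hx.1)
      have hεp : 0 < ε := lt_of_lt_of_le (by positivity) hε
      have hne : LP γ (2 + ε + τ * Complex.I) ≠ 0 := by
        have hs1 : ss (2 + 1) ε = 2 + ε := by
          unfold ss
          push_cast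
          ring
        have hbound : ∀ p : ℕ, p.Prime → ∀ j,
            ‖Pool.Agent.N534.TL.twist γ τ p j‖ ≤ (p : ℝ) ^ ((((2 + 1 : ℕ) : ℝ) - 1) / 2) := by
          intro p hp j
          have e : (((2 + 1 : ℕ) : ℝ) - 1) / 2 = 1 := by push_cast; ring
          rw [e, Real.rpow_one, Pool.Agent.N534.TL.twist_norm γ τ p hp]
          exact hγ.bound p hp j
        rw [← hs1, ← Pool.Agent.N534.TL.LP_twist, LP_eq hεp hbound]
        exact Complex.exp_ne_zero _
      exact ⟨hne, Real.abs_le_sqrt h2⟩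

end

/-- **Tate's conjecture for the products of the curves of pencils, at the integral points.** There are numbers `n₁ j`
and `n₂ i j` such that:
(1) the rank of `J_j(K)` is `n₁ j`, and the rank of `J_j(K(C_i))` is `n₂ i j`, so that `rank NS(X/K) = r` with
`r = m + ∑_{i < j} (n₂ i j - n₁ j)`;
(2) for most integral points `x`, the L-function `L₂(s, X_x)` behaves near the line `Re s = 2` as if it had a pole of
order `r` at `s = 2` and no other zero or pole on this line. -/
theorem result {σ : Type} [Fintype σ] [DecidableEq σ] {m : ℕ} {g : Fin m → ℕ}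
    {b c : Fin m → (MvPolynomial σ ℤ)[X]} (hc : ∀ i, (c i).Monic)
    (hcd : ∀ i, (c i).natDegree = 2 * g i + 1) (hb : ∀ i, (b i).natDegree < 2 * g i + 1)
    (hb0 : ∀ i, b i ≠ 0) (hs : ∀ i, (generic (b i) (c i)).Separable) :
    ∃ (n₁ : Fin m → ℕ) (n₂ : Fin m → Fin m → ℕ),
      -- the algebraic side: the rank of `J_j(K)`
      (∀ j, ClassGroupHasRank (generic (b j) (c j)) (n₁ j)) ∧
      -- the algebraic side: the rank of `J_j(K(C_i))`, for the function field `K(C_i)` of `C_i`
      (∀ i j, ∀ (K₁ : Type) [Field K₁] [Algebra (BaseField σ) K₁] (x y : K₁),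
        IsFunctionField (generic (b i) (c i)) x y →
          ClassGroupHasRank ((generic (b j) (c j)).map (algebraMap (BaseField σ) K₁)) (n₂ i j)) ∧
      -- the function fields exist
      (∀ i, ∃ (K₁ : Type) (_ : Field K₁) (_ : Algebra (BaseField σ) K₁) (x y : K₁),
        IsFunctionField (generic (b i) (c i)) x y) ∧
      -- the analytic side
      ∀ P : MvPolynomial (Option σ) ℤ, P ≠ 0 → ∀ (p₀ B : ℕ) (T : ℝ), 0 ≤ T →
        PoleInTheMean b c P p₀ B T ((m : ℝ) + ∑ i, ∑ j, if i < j then ((n₂ i j : ℝ) - n₁ j) else 0) := by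
  obtain ⟨h1, h2, h3⟩ := ranks hcd hb hb0 hs
  exact ⟨r1 b c, r2 b c, h1, h2, h3, fun P hP p₀ B T hT => mean_pole hc hcd hb hb0 hs hP p₀ B T hT⟩

end Pool.Agent.Results.MP_1f4fc7_nt.ProductsOfPencils
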